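import Mathlib
import Pool.Agent.N990.PT.Stm

/-!
# Potts model on hierarchical lattices: growth of the effective couplings (PT/GRO)
-/

open Pool.Agent.N988.EA

namespace Pool.Agent.N494.PT

open Pool.Agent.N990.PT

/-- the recursion -/
lemma kf_succ (b q : ℕ) (β : ℝ) (n : ℕ) : Kf b q β (n + 1) =
    b * Real.log ((Real.exp (2 * Kf b q β n) + q - 1) /
      (2 * Real.exp (Kf b q β n) + q - 2)) := rfl

/-- `(e^{2K} + q - 1) / (2 e^K + q - 2) ≥ 1` for all `K`. -/
lemma one_le_ratio (q : ℕ) (hq : 2 ≤ q) (K : ℝ) :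
    1 ≤ (Real.exp (2 * K) + q - 1) / (2 * Real.exp K + q - 2) := by
  have hq' : (2 : ℝ) ≤ q := by exact_mod_cast hq
  have he : 0 < Real.exp K := Real.exp_pos K
  have h2 : Real.exp (2 * K) = Real.exp K ^ 2 := by
    rw [← Real.exp_nat_mul]; norm_num
  have hd : 0 < 2 * Real.exp K + q - 2 := by linarith
  rw [le_div_iff₀ hd, h2]
  nlinarith [sq_nonneg (Real.exp K - 1)]

/-- `(e^{2K} + q - 1) / (2 e^K + q - 2) ≥ e^K / q` for `K ≥ 0`. -/
lemma ratio_lower (q : ℕ) (hq : 2 ≤ q) (K : ℝ) (hK : 0 ≤ K) :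
    Real.exp K / q ≤ (Real.exp (2 * K) + q - 1) / (2 * Real.exp K + q - 2) := by
  have hq' : (2 : ℝ) ≤ q := by exact_mod_cast hq
  have he : 1 ≤ Real.exp K := Real.one_le_exp hK
  have h2 : Real.exp (2 * K) = Real.exp K ^ 2 := by
    rw [← Real.exp_nat_mul]; norm_num
  have hd : 0 < 2 * Real.exp K + q - 2 := by linarith
  have hq0 : (0 : ℝ) < q := by linarith
  rw [div_le_div_iff₀ hq0 hd, h2]
  have h3 : 0 ≤ (q - 2 : ℝ) * (Real.exp K * (Real.exp K - 1)) :=
    mul_nonneg (by linarith) (mul_nonneg (by linarith) (by linarith))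
  nlinarith

lemma kf_nonneg (b q : ℕ) (hq : 2 ≤ q) (β : ℝ) (n : ℕ) : 0 ≤ Kf b q β (n + 1) := by
  rw [kf_succ]
  exact mul_nonneg (Nat.cast_nonneg b) (Real.log_nonneg (one_le_ratio q hq _))

lemma kf_step (b q : ℕ) (hb : 2 ≤ b) (hq : 2 ≤ q) (β : ℝ) (n : ℕ)
    (h : 2 * Real.log q + 1 ≤ Kf b q β n) : Kf b q β n + 1 ≤ Kf b q β (n + 1) := by
  have hb' : (2 : ℝ) ≤ b := by exact_mod_cast hb
  have hq' : (2 : ℝ) ≤ q := by exact_mod_cast hq
  have hl : 0 ≤ Real.log q := Real.log_nonneg (by linarith)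
  have hK : 0 ≤ Kf b q β n := by linarith
  have hq0 : (0 : ℝ) < q := by linarith
  have h1 : Kf b q β n - Real.log q ≤ Real.log ((Real.exp (2 * Kf b q β n) + q - 1) /
      (2 * Real.exp (Kf b q β n) + q - 2)) := by
    rw [Real.le_log_iff_exp_le (lt_of_lt_of_le one_pos (one_le_ratio q hq _)), Real.exp_sub,
      Real.exp_log hq0]
    exact ratio_lower q hq _ hK
  rw [kf_succ]
  have h0 : 0 ≤ Kf b q β n - Real.log q := by linarith
  calc Kf b q β n + 1 ≤ 2 * (Kf b q β n - Real.log q) := by linarith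
    _ ≤ b * (Kf b q β n - Real.log q) := mul_le_mul_of_nonneg_right hb' h0
    _ ≤ _ := mul_le_mul_of_nonneg_left h1 (by linarith)

theorem t_gro : Pool.Agent.N990.PT.S_GRO := by
  intro b q hb hq β
  refine ⟨?_, fun n => kf_nonneg b q hq β n⟩
  rintro ⟨n₀, hn₀⟩
  have hq' : (2 : ℝ) ≤ q := by exact_mod_cast hq
  have hl : 0 ≤ Real.log q := Real.log_nonneg (by linarith)
  have key : ∀ m : ℕ, 2 * Real.log q + 1 + m ≤ Kf b q β (n₀ + m) := by
    intro m
    induction m with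
    | zero => simpa using hn₀
    | succ m ih =>
      have h1 : 2 * Real.log q + 1 ≤ Kf b q β (n₀ + m) :=
        le_trans (by linarith [(Nat.cast_nonneg m : (0 : ℝ) ≤ m)]) ih
      have h2 := kf_step b q hb hq β (n₀ + m) h1
      rw [← add_assoc]
      push_cast
      linarith
  refine ⟨n₀ + |β|, fun n => ?_⟩
  have hβ : 0 ≤ |β| := abs_nonneg β
  rcases le_total n₀ n with h | h
  · obtain ⟨m, rfl⟩ := Nat.exists_eq_add_of_le h
    have h1 := key m
    push_cast
    linarith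
  · have h' : (n : ℝ) ≤ n₀ := by exact_mod_cast h
    cases n with
    | zero =>
      have h1 : Kf b q β 0 = β := rfl
      rw [h1]
      have h2 := neg_abs_le β
      have h3 : (0 : ℝ) ≤ n₀ := Nat.cast_nonneg _
      push_cast
      linarith
    | succ k =>
      have h1 := kf_nonneg b q hq β k
      linarith

end Pool.Agent.N494.PT
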